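import Pool.Agent.Lib.MP_b61f81_nt.Rare

/-!
Balanced primes of order k are rare: at most C x / (log x)^(1 + 1/(2k)) of them are at most x, and the sum of their
reciprocals converges.  The same holds, with a constant C that depends on k only, for the primes whose imbalance of
order k is any given integer v.
-/

open Finset

namespace Pool.Agent.Results.MP_b61f81_nt.Rare

/-- the imbalance of order k of the n-th prime (counted from 0); for n at least k the n-th prime is balanced of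
order k exactly when it is 0 -/
noncomputable def D (k n : ℕ) : ℤ :=
  ∑ i ∈ Icc 1 k, ((Nat.nth Nat.Prime (n - i) : ℤ) + (Nat.nth Nat.Prime (n + i) : ℤ))
    - 2 * k * (Nat.nth Nat.Prime n : ℤ)

theorem result (k : ℕ) (hk : 1 ≤ k) :
    (∃ C : ℝ, 0 < C ∧ ∀ v : ℤ, ∀ x : ℕ, 2 ≤ x →
      {n : ℕ | k ≤ n ∧ Nat.nth Nat.Prime n ≤ x ∧ D k n = v}.ncard
        ≤ C * x / (Real.log x) ^ (1 + 1 / (2 * k) : ℝ)) ∧
    (∀ v : ℤ, Summable (fun n : {n : ℕ | k ≤ n ∧ D k n = v} => 1 / (Nat.nth Nat.Prime n : ℝ))) := by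
  have h : ∀ n, Pool.Agent.Lib.MP_b61f81_nt.imb k n = D k n := by
    intro n
    unfold Pool.Agent.Lib.MP_b61f81_nt.imb D
    congr 1
    apply Finset.sum_congr rfl
    intro i _
    ring
  constructor
  · obtain ⟨C, hC, h1⟩ := Pool.Agent.Lib.MP_b61f81_nt.rare k hk
    refine ⟨C, hC, fun v x hx => ?_⟩
    have h2 := h1 v x hx
    have h3 : {n : ℕ | k ≤ n ∧ Nat.nth Nat.Prime n ≤ x ∧ D k n = v}
        = (Pool.Agent.Lib.MP_b61f81_nt.balS k v x : Set ℕ) := by
      ext n
      unfold Pool.Agent.Lib.MP_b61f81_nt.balS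
      rw [Set.mem_setOf_eq, Finset.mem_coe, mem_filter, mem_range, h n]
      have h4 := Pool.Agent.Lib.MP_b61f81_nt.self_lt_nth n
      constructor
      · rintro ⟨h5, h6, h7⟩
        exact ⟨by omega, h5, h6, h7⟩
      · rintro ⟨_, h5, h6, h7⟩
        exact ⟨h5, h6, h7⟩
    rw [h3, Set.ncard_coe_finset]
    exact h2
  · intro v
    have h1 := Pool.Agent.Lib.MP_b61f81_nt.summable_bal k hk v
    have h2 : Pool.Agent.Lib.MP_b61f81_nt.balI k v = {n : ℕ | k ≤ n ∧ D k n = v} := by
      ext n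
      unfold Pool.Agent.Lib.MP_b61f81_nt.balI
      rw [Set.mem_setOf_eq, Set.mem_setOf_eq, h n]
    rw [h2] at h1
    exact h1

end Pool.Agent.Results.MP_b61f81_nt.Rare
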