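import Pool.Agent.Lib.MP_b61f81_nt.RoughMain

/-!
Balanced elements of order k in the sequence of the integers n all of whose prime factors exceed n^c.  For c = 1/2
this is the sequence of the primes.  For every k there is c0 > 0 such that for every c in (0, c0] the sequence has
at least delta X / (c log X)^2 elements in (X, 2X] which are the mean of the k elements before and the k elements
after them.
-/

open Finset

namespace Pool.Agent.Results.MP_b61f81_nt.RoughNumbers

/-- n > 1 and every prime factor of n is greater than n^c -/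
def Rough (c : ℝ) (n : ℕ) : Prop := 1 < n ∧ ∀ p : ℕ, p.Prime → p ∣ n → (n : ℝ) ^ c < p

/-- the i-th element (counted from 0) of the increasing sequence of the integers n with Rough c n -/
noncomputable def r (c : ℝ) (i : ℕ) : ℕ := Nat.nth (Rough c) i

theorem result :
    (∀ i : ℕ, r (1 / 2) i = Nat.nth Nat.Prime i) ∧
    ∀ k : ℕ, 1 ≤ k → ∃ c₀ δ : ℝ, 0 < c₀ ∧ 0 < δ ∧ ∀ c : ℝ, 0 < c → c ≤ c₀ → ∃ X₀ : ℕ, ∀ X : ℕ, X₀ ≤ X →
      δ * X / (c * Real.log X) ^ 2 ≤
        {i : ℕ | k ≤ i ∧ X < r c i ∧ r c i ≤ 2 * X ∧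
          ∑ j ∈ Icc 1 k, (r c (i - j) + r c (i + j)) = 2 * k * r c i}.ncard := by
  constructor
  · intro i
    unfold r
    congr 1
    funext n
    exact propext (Pool.Agent.Lib.MP_b61f81_nt.rough_half n)
  · intro k hk
    obtain ⟨c₀, δ, hc₀, hδ, _, h⟩ := Pool.Agent.Lib.MP_b61f81_nt.rough_main k hk
    exact ⟨c₀, δ, hc₀, hδ, h⟩

end Pool.Agent.Results.MP_b61f81_nt.RoughNumbers
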