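import Pool.Agent.Lib.MP_b61f81_nt.Osc

/-!
Balanced primes of order k: the imbalance of order k, that is the sum of the k primes before and the k primes after
a prime minus 2k times that prime, jumps from at least c log N to at most -c log N, and also from at most -c log N
to at least c log N, between two consecutive primes, for a positive proportion of the indices up to N.
-/

open Finset

namespace Pool.Agent.Results.MP_b61f81_nt.SignChanges

/-- the imbalance of order k of the n-th prime (counted from 0); for n at least k the n-th prime is balanced of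
order k exactly when it is 0 -/
noncomputable def D (k n : ℕ) : ℤ :=
  ∑ i ∈ Icc 1 k, ((Nat.nth Nat.Prime (n - i) : ℤ) + (Nat.nth Nat.Prime (n + i) : ℤ))
    - 2 * k * (Nat.nth Nat.Prime n : ℤ)

theorem result (k : ℕ) (hk : 1 ≤ k) :
    ∃ δ : ℝ, 0 < δ ∧ ∃ N₀ : ℕ, ∀ N : ℕ, N₀ ≤ N →
      δ * N ≤ #{n ∈ range N | k ≤ n ∧ δ * Real.log N ≤ (D k n : ℝ) ∧
        (D k (n + 1) : ℝ) ≤ -(δ * Real.log N)} ∧
      δ * N ≤ #{n ∈ range N | k ≤ n ∧ (D k n : ℝ) ≤ -(δ * Real.log N) ∧
        δ * Real.log N ≤ (D k (n + 1) : ℝ)} := by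
  have h : ∀ n, Pool.Agent.Lib.MP_b61f81_nt.imb k n = D k n := by
    intro n
    unfold Pool.Agent.Lib.MP_b61f81_nt.imb D
    congr 1
    apply Finset.sum_congr rfl
    intro i _
    ring
  have h1 := Pool.Agent.Lib.MP_b61f81_nt.changes k hk
  simp only [h] at h1
  exact h1

end Pool.Agent.Results.MP_b61f81_nt.SignChanges
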